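import Mathlib

/-!
# MP_b10093_nt (helper21): the local lemma

`R` a finite set of primes with exponents `e q ≥ 1`, `p` its least element, `q^2 ∣ ∏_{r ∈ R} σ(r^(e r))` for all
`q ∈ R`.  Then `p^4 ≤ 256 ∏_{q ∈ R} q^(e q - 1)`.
-/

set_option autoImplicit false

namespace Pool.Agent.SigRad

open Finset ArithmeticFunction

/-- `σ(q^e) = 1 + q + .. + q^e` -/
def sg (q e : ℕ) : ℕ := ∑ i ∈ range (e + 1), q ^ i

theorem sg_eq {q : ℕ} (hq : q.Prime) (e : ℕ) : sigma 1 (q ^ e) = sg q e := by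
  rw [sigma_one_apply_prime_pow hq]
  rfl

theorem sg_one (q : ℕ) : sg q 1 = q + 1 := by
  simp [sg, Finset.sum_range_succ]; ring

theorem sg_two (q : ℕ) : sg q 2 = q ^ 2 + q + 1 := by
  simp [sg, Finset.sum_range_succ]; ring

theorem sg_three (q : ℕ) : sg q 3 = (q + 1) * (q ^ 2 + 1) := by
  simp [sg, Finset.sum_range_succ]; ring

theorem sg_four (q : ℕ) : sg q 4 = q ^ 4 + q ^ 3 + q ^ 2 + q + 1 := by
  simp [sg, Finset.sum_range_succ]; ring

theorem sg_pos (q e : ℕ) : 0 < sg q e := by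
  unfold sg
  exact Finset.sum_pos' (fun _ _ => Nat.zero_le _) ⟨0, by simp, by simp⟩

theorem sg_succ (q e : ℕ) : sg q (e + 1) = 1 + q * sg q e := by
  unfold sg
  rw [Finset.sum_range_succ' , Finset.mul_sum]
  simp only [pow_zero, pow_succ]
  rw [add_comm]
  congr 1
  exact Finset.sum_congr rfl fun i _ => by ring

/-- `q` does not divide `σ(q^e)` -/
theorem not_dvd_sg {q : ℕ} (hq : q.Prime) (e : ℕ) : ¬ q ∣ sg q e := by
  cases e with
  | zero => simp [sg, hq.one_lt.ne']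
  | succ e =>
    rw [sg_succ]
    intro h
    have h1 : q ∣ 1 := (Nat.dvd_add_left (dvd_mul_right q _)).1 h
    exact hq.one_lt.ne' (Nat.dvd_one.1 h1)

theorem le_sg (q e : ℕ) : q ^ e ≤ sg q e := by
  unfold sg
  exact Finset.single_le_sum (f := fun i => q ^ i) (fun _ _ => Nat.zero_le _) (Finset.self_mem_range_succ e)

/-- `σ(q^e) (q - 1) ≤ q q^e` -/
theorem sg_le (q e : ℕ) (hq : 1 ≤ q) : sg q e * (q - 1) ≤ q * q ^ e := by
  obtain ⟨m, rfl⟩ : ∃ m, q = m + 1 := ⟨q - 1, by omega⟩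
  have h3 : sg (m + 1) e * m + 1 = (m + 1) ^ (e + 1) := by
    unfold sg
    induction e with
    | zero => simp
    | succ e ih =>
      rw [Finset.sum_range_succ, add_mul]
      have : (m + 1) ^ (e + 1 + 1) = (m + 1) ^ (e + 1) * m + (m + 1) ^ (e + 1) := by ring
      rw [this]
      omega
  rw [Nat.add_sub_cancel, ← pow_succ']
  omega

/-- `r > q + 1` prime: `r ∤ σ(q)` -/
theorem nd1 {q r : ℕ} (h : q + 1 < r) : ¬ r ∣ sg q 1 := by
  rw [sg_one]
  intro h1
  exact absurd (Nat.le_of_dvd (by omega) h1) (by omega)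

theorem sq2 {q r : ℕ} (h : q + 1 < r) : ¬ r ^ 2 ∣ sg q 2 := by
  rw [sg_two]
  intro h1
  have h2 := Nat.le_of_dvd (by positivity) h1
  nlinarith

theorem d3 {q r : ℕ} (hr : r.Prime) (h : q + 1 < r) (hd : r ∣ sg q 3) : r ∣ q ^ 2 + 1 := by
  rw [sg_three] at hd
  rcases (Nat.Prime.dvd_mul hr).1 hd with h1 | h1
  · exact absurd (Nat.le_of_dvd (by omega) h1) (by omega)
  · exact h1

theorem sq3 {q r : ℕ} (hr : r.Prime) (h : q + 1 < r) : ¬ r ^ 2 ∣ sg q 3 := by
  rw [sg_three]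
  intro h1
  have hc : Nat.Coprime (r ^ 2) (q + 1) := by
    apply Nat.Coprime.pow_left
    rw [Nat.Prime.coprime_iff_not_dvd hr]
    intro h2
    exact absurd (Nat.le_of_dvd (by omega) h2) (by omega)
  have h2 := hc.dvd_of_dvd_mul_left h1
  have h3 := Nat.le_of_dvd (by positivity) h2
  nlinarith

/-- what the square of a prime `r` larger than `p` and `q` needs to divide `σ(p^a) σ(q^b)` -/
theorem sq_mul {r : ℕ} (hr : r.Prime) {A B : ℕ} (h : r ^ 2 ∣ A * B) :
    r ^ 2 ∣ A ∨ r ^ 2 ∣ B ∨ (r ∣ A ∧ r ∣ B) := by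
  by_cases hA : r ∣ A
  · by_cases hB : r ∣ B
    · exact Or.inr (Or.inr ⟨hA, hB⟩)
    · left
      exact (Nat.Coprime.pow_left 2 ((Nat.Prime.coprime_iff_not_dvd hr).2 hB)).dvd_of_dvd_mul_right h
  · right; left
    exact (Nat.Coprime.pow_left 2 ((Nat.Prime.coprime_iff_not_dvd hr).2 hA)).dvd_of_dvd_mul_left h

/-- an odd prime square dividing `q + 1`, `q` odd -/
theorem two_sq {m q k : ℕ} (hm : m % 2 = 1) (hq : q % 2 = 1) (h : m ^ k ∣ q + 1) : 2 * m ^ k ≤ q + 1 := by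
  obtain ⟨c, hc⟩ := h
  have hodd : m ^ k % 2 = 1 := by
    rw [Nat.pow_mod, hm, one_pow]
    norm_num
  have hc2 : c % 2 = 0 := by
    by_contra hne
    have h1 : c % 2 = 1 := by omega
    have h2 : (m ^ k * c) % 2 = 1 := by rw [Nat.mul_mod, hodd, h1]
    omega
  have hc0 : 2 ≤ c := by
    rcases Nat.eq_zero_or_pos c with h0 | h0
    · rw [h0, Nat.mul_zero] at hc; omega
    · omega
  calc 2 * m ^ k = m ^ k * 2 := mul_comm _ _
    _ ≤ m ^ k * c := Nat.mul_le_mul_left _ hc0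
    _ = q + 1 := hc.symm

/-- two primes -/
theorem loc2 {p q a b : ℕ} (hp : p.Prime) (hq : q.Prime) (h5 : 5 ≤ p) (hpq : p < q)
    (ha : 1 ≤ a) (hb : 1 ≤ b) (h1 : q ^ 2 ∣ sg p a) (h2 : p ^ 2 ∣ sg q b) :
    p ^ 4 ≤ p ^ (a - 1) * q ^ (b - 1) := by
  have hpo : p % 2 = 1 := by
    rcases hp.eq_two_or_odd with h | h
    · omega
    · exact h
  have hqo : q % 2 = 1 := by
    rcases hq.eq_two_or_odd with h | h
    · omega
    · exact h
  have hpq1 : p + 1 < q := by omega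
  have hq1 : 1 ≤ q ^ (b - 1) := Nat.one_le_pow _ _ (by omega)
  by_cases ha5 : 5 ≤ a
  · calc p ^ 4 ≤ p ^ (a - 1) := Nat.pow_le_pow_right (by omega) (by omega)
      _ ≤ _ := Nat.le_mul_of_pos_right _ hq1
  · have : a = 1 ∨ a = 2 ∨ a = 3 ∨ a = 4 := by omega
    rcases this with rfl | rfl | rfl | rfl
    · exact absurd ((dvd_pow_self q (by norm_num)).trans h1) (nd1 hpq1)
    · exact absurd h1 (sq2 hpq1)
    · exact absurd h1 (sq3 hq hpq1)
    · by_cases hb2 : 2 ≤ b
      · calc p ^ 4 = p ^ 3 * p := by ring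
          _ ≤ p ^ (4 - 1) * q ^ (b - 1) := by
            refine Nat.mul_le_mul_left _ ?_
            calc p ≤ q := hpq.le
              _ = q ^ 1 := (pow_one q).symm
              _ ≤ q ^ (b - 1) := Nat.pow_le_pow_right (by omega) (by omega)
      · exfalso
        have hb1 : b = 1 := by omega
        subst hb1
        rw [sg_one] at h2
        have h3 := two_sq hpo hqo h2
        have h4 := Nat.le_of_dvd (sg_pos _ _) h1
        rw [sg_four] at h4
        have h5' : p ^ 4 + p ^ 3 + p ^ 2 + p + 1 < 2 * p ^ 4 := by nlinarith [pow_pos hp.pos 2, pow_pos hp.pos 3]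
        have h6 : (2 * p ^ 2 - 1) ^ 2 ≤ q ^ 2 := Nat.pow_le_pow_left (by omega) 2
        have h7 : 2 * p ^ 4 ≤ (2 * p ^ 2 - 1) ^ 2 := by
          obtain ⟨m, hm⟩ : ∃ m, 2 * p ^ 2 = m + 1 := ⟨2 * p ^ 2 - 1, by have := pow_pos hp.pos 2; omega⟩
          rw [hm, Nat.add_sub_cancel]
          have h8 : 2 * (2 * p ^ 4) = (m + 1) ^ 2 := by rw [← hm]; ring
          have h9 : 25 ≤ p ^ 2 := by nlinarith
          nlinarith
        omega

theorem sg4_lt {p : ℕ} (h5 : 5 ≤ p) : 4 * sg p 4 ≤ 5 * p ^ 4 := by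
  rw [sg_four]
  have h1 : 25 ≤ p ^ 2 := by nlinarith
  have h2 : 125 ≤ p ^ 3 := by nlinarith
  have h3 : 5 * p ^ 3 ≤ p ^ 4 := by nlinarith [pow_pos (show 0 < p by omega) 3]
  have h4 : 5 * p ^ 2 ≤ p ^ 3 := by nlinarith [pow_pos (show 0 < p by omega) 2]
  have h5 : 5 * p ≤ p ^ 2 := by nlinarith
  omega

theorem big_sq {p m : ℕ} (h5 : 5 ≤ p) (h : 2 * p ^ 2 ≤ m + 1) : 2 * p ^ 4 ≤ m ^ 2 := by
  have h1 : 25 ≤ p ^ 2 := by nlinarith
  have h2 : 2 * (2 * p ^ 4) = (2 * p ^ 2) ^ 2 := by ring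
  have h3 : (2 * p ^ 2) ^ 2 ≤ (m + 1) ^ 2 := Nat.pow_le_pow_left h 2
  have h4 : 49 ≤ m := by omega
  nlinarith

theorem no_big {p m : ℕ} (h5 : 5 ≤ p) (h : 2 * p ^ 2 ≤ m + 1) (hd : m ^ 2 ∣ sg p 4) : False := by
  have h1 := big_sq h5 h
  have h2 := Nat.le_of_dvd (sg_pos _ _) hd
  have h3 := sg4_lt h5
  have h4 : 0 < p ^ 4 := pow_pos (by omega) 4
  omega

/-- three primes -/
theorem loc3 {p q r a b c : ℕ} (hp : p.Prime) (hq : q.Prime) (hr : r.Prime) (h5 : 5 ≤ p) (hpq : p < q) (hqr : q < r)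
    (ha : 1 ≤ a) (hb : 1 ≤ b) (hc : 1 ≤ c) (h1 : p ^ 2 ∣ sg q b * sg r c) (h2 : q ^ 2 ∣ sg p a * sg r c)
    (h3 : r ^ 2 ∣ sg p a * sg q b) (hd : (p * q * r) ^ 2 ∣ sg p a * sg q b * sg r c) :
    p ^ 4 ≤ p ^ (a - 1) * q ^ (b - 1) * r ^ (c - 1) := by
  have hpo : p % 2 = 1 := by
    rcases hp.eq_two_or_odd with h | h
    · omega
    · exact h
  have hqo : q % 2 = 1 := by
    rcases hq.eq_two_or_odd with h | h
    · omega
    · exact h
  have hro : r % 2 = 1 := by
    rcases hr.eq_two_or_odd with h | h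
    · omega
    · exact h
  have hpq1 : p + 1 < q := by omega
  have hqr1 : q + 1 < r := by omega
  have hpr1 : p + 1 < r := by omega
  by_cases hsum : 7 ≤ a + b + c
  · calc p ^ 4 ≤ p ^ ((a - 1) + (b - 1) + (c - 1)) := Nat.pow_le_pow_right (by omega) (by omega)
      _ = p ^ (a - 1) * p ^ (b - 1) * p ^ (c - 1) := by rw [pow_add, pow_add]
      _ ≤ _ := Nat.mul_le_mul (Nat.mul_le_mul_left _ (Nat.pow_le_pow_left (by omega) _))
          (Nat.pow_le_pow_left (by omega) _)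
  exfalso
  have hqrp : ∀ N : ℕ, q ∣ N → r ∣ N → 0 < N → q * r ≤ N := by
    intro N hqN hrN hN
    have hcop : Nat.Coprime q r := (Nat.coprime_primes hq hr).2 (by omega)
    exact Nat.le_of_dvd hN (hcop.mul_dvd_of_dvd_of_dvd hqN hrN)
  rcases sq_mul hr h3 with h | h | ⟨h, h'⟩
  · -- `r^2 ∣ σ(p^a)`: `(4, 1, 1)`
    have ha4 : a = 4 := by
      by_contra hne
      have : a = 1 ∨ a = 2 ∨ a = 3 := by omega
      rcases this with rfl | rfl | rfl
      · exact nd1 hpr1 ((dvd_pow_self r (by norm_num)).trans h)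
      · exact sq2 hpr1 h
      · exact sq3 hr hpr1 h
    have hb1 : b = 1 := by omega
    have hc1 : c = 1 := by omega
    subst ha4 hb1 hc1
    rcases sq_mul hp h1 with g | g | ⟨g, g'⟩
    · rw [sg_one] at g
      have g1 := two_sq hpo hqo g
      exact no_big h5 (m := r) (by omega) h
    · rw [sg_one] at g
      have g1 := two_sq hpo hro g
      exact no_big h5 (m := r) (by omega) h
    · rw [sg_one] at g g'
      obtain ⟨u, hu⟩ := g
      obtain ⟨w, hw⟩ := g'
      have hu2 : u % 2 = 0 := by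
        by_contra hne
        have e1 : u % 2 = 1 := by omega
        have e2 : (p * u) % 2 = 1 := by rw [Nat.mul_mod, hpo, e1]
        omega
      have hw2 : w % 2 = 0 := by
        by_contra hne
        have e1 : w % 2 = 1 := by omega
        have e2 : (p * w) % 2 = 1 := by rw [Nat.mul_mod, hpo, e1]
        omega
      have hu0 : 2 ≤ u := by
        rcases Nat.eq_zero_or_pos u with h0 | h0
        · rw [h0, Nat.mul_zero] at hu; omega
        · omega
      have huw : u < w := by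
        have : p * u < p * w := by omega
        exact lt_of_mul_lt_mul_left this (Nat.zero_le _)
      have hw4 : 4 ≤ w := by omega
      have hq' : 2 * p ≤ q + 1 := by
        rw [hu]; nlinarith
      have hr' : 4 * p ≤ r + 1 := by
        rw [hw]; nlinarith
      have g1 := Nat.le_of_dvd (Nat.mul_pos (Nat.mul_pos (sg_pos _ _) (sg_pos _ _)) (sg_pos _ _)) hd
      rw [sg_one, sg_one] at g1
      have g2 := sg4_lt h5
      have g3 : 9 * (q + 1) ≤ 10 * q := by omega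
      have g4 : 19 * (r + 1) ≤ 20 * r := by omega
      have g5 : 4 * sg p 4 * (9 * (q + 1)) * (19 * (r + 1)) ≤ 5 * p ^ 4 * (10 * q) * (20 * r) :=
        Nat.mul_le_mul (Nat.mul_le_mul g2 g3) g4
      have g6 : 684 * (p * q * r) ^ 2 ≤ 1000 * (p ^ 4 * q * r) := by
        calc 684 * (p * q * r) ^ 2 ≤ 684 * (sg p 4 * (q + 1) * (r + 1)) := Nat.mul_le_mul_left _ g1
          _ = 4 * sg p 4 * (9 * (q + 1)) * (19 * (r + 1)) := by ring
          _ ≤ _ := g5
          _ = _ := by ring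
      have g7 : 684 * (q * r) ≤ 1000 * p ^ 2 := by
        have hpos : 0 < p ^ 2 * (q * r) := Nat.mul_pos (pow_pos hp.pos 2) (Nat.mul_pos hq.pos hr.pos)
        refine le_of_mul_le_mul_left ?_ hpos
        calc p ^ 2 * (q * r) * (684 * (q * r)) = 684 * (p * q * r) ^ 2 := by ring
          _ ≤ _ := g6
          _ = _ := by ring
      have g8 : 9 * p ≤ 5 * q := by omega
      have g9 : 19 * p ≤ 5 * r := by omega
      have g10 : 9 * p * (19 * p) ≤ 5 * q * (5 * r) := Nat.mul_le_mul g8 g9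
      have g11 : 0 < p ^ 2 := pow_pos hp.pos 2
      nlinarith
  · -- `r^2 ∣ σ(q^b)`: `(1, 4, 1)`
    have hb4 : b = 4 := by
      by_contra hne
      have : b = 1 ∨ b = 2 ∨ b = 3 := by omega
      rcases this with rfl | rfl | rfl
      · exact nd1 hqr1 ((dvd_pow_self r (by norm_num)).trans h)
      · exact sq2 hqr1 h
      · exact sq3 hr hqr1 h
    have ha1 : a = 1 := by omega
    have hc1 : c = 1 := by omega
    subst hb4 ha1 hc1
    rcases sq_mul hq h2 with g | g | ⟨g, g'⟩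
    · exact nd1 hpq1 ((dvd_pow_self q (by norm_num)).trans g)
    · rw [sg_one] at g
      have g1 := two_sq hqo hro g
      exact no_big (by omega) g1 h
    · exact nd1 hpq1 g
  · -- once each
    have ha2 : 2 ≤ a := by
      by_contra hne
      have : a = 1 := by omega
      subst this
      exact nd1 hpr1 h
    have hb2 : 2 ≤ b := by
      by_contra hne
      have : b = 1 := by omega
      subst this
      exact nd1 hqr1 h'
    -- `r ≤ p^2 + p + 1`, and `q r` does not divide `σ(p^a)`, `q^2` neither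
    have hrle : r ≤ p ^ 2 + p + 1 ∧ ¬ q ∣ sg p a ∧ ¬ q ^ 2 ∣ sg p a := by
      have : a = 2 ∨ a = 3 := by omega
      rcases this with rfl | rfl
      · refine ⟨?_, ?_, sq2 hpq1⟩
        · rw [sg_two] at h
          exact Nat.le_of_dvd (by positivity) h
        · intro hqd
          have := hqrp _ hqd h (sg_pos _ _)
          rw [sg_two] at this
          nlinarith
      · have g := d3 hr hpr1 h
        refine ⟨?_, ?_, sq3 hq hpq1⟩
        · have := Nat.le_of_dvd (by positivity) g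
          omega
        · intro hqd
          have := hqrp _ (d3 hq hpq1 hqd) g (by positivity)
          nlinarith
    obtain ⟨hr1, hnq, hnq2⟩ := hrle
    have hq2 : q ^ 2 ∣ sg r c := by
      rcases sq_mul hq h2 with g | g | ⟨g, _⟩
      · exact absurd g hnq2
      · exact g
      · exact absurd g hnq
    have hc12 : c = 1 ∨ (a = 2 ∧ b = 2 ∧ c = 2) := by omega
    rcases hc12 with rfl | ⟨rfl, rfl, rfl⟩
    · rw [sg_one] at hq2
      have g1 := two_sq hqo hro hq2
      nlinarith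
    · -- the ratio
      rw [sg_two, sg_two, sg_two] at hd
      obtain ⟨m, hm⟩ := hd
      have g1 : 25 * (p ^ 2 + p + 1) ≤ 31 * p ^ 2 := by nlinarith
      have g2 : 49 * (q ^ 2 + q + 1) ≤ 57 * q ^ 2 := by nlinarith
      have g3 : 81 * (r ^ 2 + r + 1) ≤ 91 * r ^ 2 := by nlinarith
      have g4 := Nat.mul_le_mul (Nat.mul_le_mul g1 g2) g3
      have g5 : 99225 * ((p * q * r) ^ 2 * m) ≤ 160797 * (p * q * r) ^ 2 := by
        rw [← hm]
        calc 99225 * ((p ^ 2 + p + 1) * (q ^ 2 + q + 1) * (r ^ 2 + r + 1)) =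
            25 * (p ^ 2 + p + 1) * (49 * (q ^ 2 + q + 1)) * (81 * (r ^ 2 + r + 1)) := by ring
          _ ≤ _ := g4
          _ = _ := by ring
      have hN : 0 < (p * q * r) ^ 2 := pow_pos (Nat.mul_pos (Nat.mul_pos hp.pos hq.pos) hr.pos) 2
      have g6 : (p * q * r) ^ 2 < (p * q * r) ^ 2 * m := by
        rw [← hm]
        have e1 : p ^ 2 < p ^ 2 + p + 1 := by omega
        have e2 : q ^ 2 < q ^ 2 + q + 1 := by omega
        have e3 : r ^ 2 < r ^ 2 + r + 1 := by omega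
        calc (p * q * r) ^ 2 = p ^ 2 * q ^ 2 * r ^ 2 := by ring
          _ < _ := Nat.mul_lt_mul'' (Nat.mul_lt_mul'' e1 e2) e3
      have hm2 : 2 ≤ m := by
        by_contra hne
        have : m ≤ 1 := by omega
        have := Nat.mul_le_mul_left ((p * q * r) ^ 2) this
        omega
      have := Nat.mul_le_mul_left ((p * q * r) ^ 2) hm2
      omega

theorem prod_le_card (R : Finset ℕ) (hR : ∀ q ∈ R, 2 ≤ q) :
    ∏ q ∈ R, q ≤ (R.card + 1) * ∏ q ∈ R, (q - 1) := by
  induction R using Finset.induction_on_max with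
  | empty => simp
  | insert m R hlt ih =>
    have hm : m ∉ R := fun h => lt_irrefl _ (hlt m h)
    rw [Finset.prod_insert hm, Finset.prod_insert hm, Finset.card_insert_of_notMem hm]
    have ih' := ih fun q hq => hR q (Finset.mem_insert_of_mem hq)
    have hm2 := hR m (Finset.mem_insert_self _ _)
    have hk : R.card + 2 ≤ m := by
      have hsub : R ⊆ Finset.Ico 2 m := by
        intro q hq
        rw [Finset.mem_Ico]
        exact ⟨hR q (Finset.mem_insert_of_mem hq), hlt q hq⟩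
      have := Finset.card_le_card hsub
      rw [Nat.card_Ico] at this
      omega
    obtain ⟨t, rfl⟩ : ∃ t, m = t + 1 := ⟨m - 1, by omega⟩
    rw [Nat.add_sub_cancel]
    calc (t + 1) * ∏ q ∈ R, q ≤ (t + 1) * ((R.card + 1) * ∏ q ∈ R, (q - 1)) := Nat.mul_le_mul_left _ ih'
      _ = ((t + 1) * (R.card + 1)) * ∏ q ∈ R, (q - 1) := by ring
      _ ≤ ((R.card + 1 + 1) * t) * ∏ q ∈ R, (q - 1) := by
        refine Nat.mul_le_mul_right _ ?_
        nlinarith
      _ = _ := by ring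

theorem sq_dvd (R : Finset ℕ) (hR : ∀ q ∈ R, q.Prime) (N : ℕ) (hdiv : ∀ q ∈ R, q ^ 2 ∣ N) :
    (∏ q ∈ R, q) ^ 2 ∣ N := by
  rw [← Finset.prod_pow]
  refine Finset.prod_dvd_of_isRelPrime ?_ hdiv
  intro a ha b hb hab
  have h1 : Nat.Coprime a b := (Nat.coprime_primes (hR a ha) (hR b hb)).2 hab
  exact Nat.coprime_iff_isRelPrime.1 (h1.pow 2 2)

/-- many primes -/
theorem locM (R : Finset ℕ) (hR : ∀ q ∈ R, q.Prime) (e : ℕ → ℕ) (he : ∀ q ∈ R, 1 ≤ e q) (p : ℕ) (h5 : 5 ≤ p)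
    (hmin : ∀ q ∈ R, p ≤ q) (hdiv : ∀ q ∈ R, q ^ 2 ∣ ∏ r ∈ R, sg r (e r)) (hk : 4 ≤ R.card) :
    p ^ 4 ≤ 5 * ∏ q ∈ R, q ^ (e q - 1) := by
  set ρ := ∏ q ∈ R, q with hρ
  set g := ∏ q ∈ R, q ^ (e q - 1) with hg
  set T := ∏ r ∈ R, sg r (e r) with hT
  set D := ∏ q ∈ R, (q - 1) with hD
  have hρ0 : 0 < ρ := Finset.prod_pos fun q hq => (hR q hq).pos
  have hD0 : 0 < D := Finset.prod_pos fun q hq => by have := (hR q hq).two_le; omega
  have hT0 : 0 < T := Finset.prod_pos fun q _ => sg_pos _ _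
  have h1 : ρ ^ 2 ≤ T := Nat.le_of_dvd hT0 (sq_dvd R hR T hdiv)
  have h2 : T * D ≤ ρ * (ρ * g) := by
    rw [hT, hD, ← Finset.prod_mul_distrib, hρ, hg, ← Finset.prod_mul_distrib, ← Finset.prod_mul_distrib]
    refine Finset.prod_le_prod' fun q hq => ?_
    have e1 : q * q ^ (e q - 1) = q ^ e q := by
      rw [← pow_succ', Nat.sub_add_cancel (he q hq)]
    rw [e1]
    exact sg_le q (e q) (hR q hq).one_lt.le
  have h3 : ρ ≤ (R.card + 1) * D := prod_le_card R fun q hq => (hR q hq).two_le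
  have h4 : ρ ≤ (R.card + 1) * g := by
    have e1 : ρ ^ 2 * ρ ≤ (R.card + 1) * (ρ * (ρ * g)) := by
      calc ρ ^ 2 * ρ ≤ T * ((R.card + 1) * D) := Nat.mul_le_mul h1 h3
        _ = (R.card + 1) * (T * D) := by ring
        _ ≤ _ := Nat.mul_le_mul_left _ h2
    have e2 : ρ ^ 2 * ρ ≤ ρ ^ 2 * ((R.card + 1) * g) := by
      calc ρ ^ 2 * ρ ≤ _ := e1
        _ = _ := by ring
    exact le_of_mul_le_mul_left e2 (pow_pos hρ0 2)
  have h5' : p ^ R.card ≤ ρ := by
    rw [hρ]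
    exact Finset.pow_card_le_prod _ _ _ hmin
  obtain ⟨m, hm⟩ : ∃ m, R.card = m + 4 := ⟨R.card - 4, by omega⟩
  rw [hm] at h4 h5'
  have h6 : m + 4 + 1 ≤ 5 * 5 ^ m := by
    clear h5' h4 hm
    induction m with
    | zero => norm_num
    | succ m ih => rw [pow_succ]; omega
  have h7 : 5 ^ m * p ^ 4 ≤ 5 ^ m * (5 * g) := by
    calc 5 ^ m * p ^ 4 ≤ p ^ m * p ^ 4 := Nat.mul_le_mul_right _ (Nat.pow_le_pow_left h5 m)
      _ = p ^ (m + 4) := by rw [pow_add]
      _ ≤ (m + 4 + 1) * g := h5'.trans h4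
      _ ≤ 5 * 5 ^ m * g := Nat.mul_le_mul_right _ h6
      _ = _ := by ring
  exact le_of_mul_le_mul_left h7 (pow_pos (by norm_num) m)

/-- **the local lemma** -/
theorem loc (R : Finset ℕ) (hR : ∀ q ∈ R, q.Prime) (e : ℕ → ℕ) (he : ∀ q ∈ R, 1 ≤ e q) (p : ℕ) (hpR : p ∈ R)
    (hmin : ∀ q ∈ R, p ≤ q) (hdiv : ∀ q ∈ R, q ^ 2 ∣ ∏ r ∈ R, sg r (e r)) :
    p ^ 4 ≤ 256 * ∏ q ∈ R, q ^ (e q - 1) := by
  have hg0 : 0 < ∏ q ∈ R, q ^ (e q - 1) := Finset.prod_pos fun q hq => pow_pos (hR q hq).pos _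
  by_cases h5 : 5 ≤ p
  swap
  · have h4 : p ≤ 4 := by omega
    have : p ^ 4 ≤ 4 ^ 4 := Nat.pow_le_pow_left h4 4
    have h256 : 4 ^ 4 = 256 := by norm_num
    nlinarith
  have hp := hR p hpR
  have hcard : R.card = 1 ∨ R.card = 2 ∨ R.card = 3 ∨ 4 ≤ R.card := by
    have : 0 < R.card := Finset.card_pos.2 ⟨p, hpR⟩
    omega
  rcases hcard with hk | hk | hk | hk
  · exfalso
    obtain ⟨x, hx⟩ := Finset.card_eq_one.1 hk
    subst hx
    rw [Finset.mem_singleton] at hpR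
    subst hpR
    have h1 := hdiv p (Finset.mem_singleton_self _)
    rw [Finset.prod_singleton] at h1
    exact not_dvd_sg hp _ ((dvd_pow_self p (by norm_num)).trans h1)
  · -- two
    have hE : (R.erase p).card = 1 := by rw [Finset.card_erase_of_mem hpR, hk]
    obtain ⟨q, hq⟩ := Finset.card_eq_one.1 hE
    have hqR : q ∈ R := Finset.mem_of_mem_erase (hq ▸ Finset.mem_singleton_self q)
    have hqp : q ≠ p := Finset.ne_of_mem_erase (hq ▸ Finset.mem_singleton_self q)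
    have hprod : ∀ f : ℕ → ℕ, ∏ x ∈ R, f x = f p * f q := by
      intro f
      rw [← Finset.mul_prod_erase R f hpR, hq, Finset.prod_singleton]
    have h1 := hdiv p hpR
    have h2 := hdiv q hqR
    rw [hprod] at h1 h2 ⊢
    have hpq : p < q := lt_of_le_of_ne (hmin q hqR) (Ne.symm hqp)
    have hq' := hR q hqR
    have h1' : p ^ 2 ∣ sg q (e q) :=
      (Nat.Coprime.pow_left 2 ((Nat.Prime.coprime_iff_not_dvd hp).2 (not_dvd_sg hp _))).dvd_of_dvd_mul_left h1
    have h2' : q ^ 2 ∣ sg p (e p) :=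
      (Nat.Coprime.pow_left 2 ((Nat.Prime.coprime_iff_not_dvd hq').2 (not_dvd_sg hq' _))).dvd_of_dvd_mul_right h2
    have := loc2 hp hq' h5 hpq (he p hpR) (he q hqR) h2' h1'
    omega
  · -- three
    have hE : (R.erase p).card = 2 := by rw [Finset.card_erase_of_mem hpR, hk]
    obtain ⟨x, y, hxy, hq⟩ := Finset.card_eq_two.1 hE
    have key : ∀ q r : ℕ, q < r → R.erase p = {q, r} → p ^ 4 ≤ ∏ q ∈ R, q ^ (e q - 1) := by
      intro q r hqr hqq
      have hqe : q ∈ R.erase p := by rw [hqq]; simp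
      have hre : r ∈ R.erase p := by rw [hqq]; simp
      have hqR : q ∈ R := Finset.mem_of_mem_erase hqe
      have hrR : r ∈ R := Finset.mem_of_mem_erase hre
      have hqp : q ≠ p := Finset.ne_of_mem_erase hqe
      have hpq : p < q := lt_of_le_of_ne (hmin q hqR) (Ne.symm hqp)
      have hprod : ∀ f : ℕ → ℕ, ∏ x ∈ R, f x = f p * f q * f r := by
        intro f
        rw [← Finset.mul_prod_erase R f hpR, hqq, Finset.prod_pair hqr.ne]
        ring
      have hq' := hR q hqR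
      have hr' := hR r hrR
      have h0 := sq_dvd R hR _ hdiv
      have h1 := hdiv p hpR
      have h2 := hdiv q hqR
      have h3 := hdiv r hrR
      rw [hprod] at h0 h1 h2 h3 ⊢
      rw [hprod] at h0
      have h1' : p ^ 2 ∣ sg q (e q) * sg r (e r) := by
        refine (Nat.Coprime.pow_left 2 ((Nat.Prime.coprime_iff_not_dvd hp).2 (not_dvd_sg hp (e p)))).dvd_of_dvd_mul_left ?_
        rw [← mul_assoc]; exact h1
      have h2' : q ^ 2 ∣ sg p (e p) * sg r (e r) := by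
        refine (Nat.Coprime.pow_left 2 ((Nat.Prime.coprime_iff_not_dvd hq').2 (not_dvd_sg hq' (e q)))).dvd_of_dvd_mul_left ?_
        have : sg q (e q) * (sg p (e p) * sg r (e r)) = sg p (e p) * sg q (e q) * sg r (e r) := by ring
        rw [this]; exact h2
      have h3' : r ^ 2 ∣ sg p (e p) * sg q (e q) :=
        (Nat.Coprime.pow_left 2 ((Nat.Prime.coprime_iff_not_dvd hr').2 (not_dvd_sg hr' (e r)))).dvd_of_dvd_mul_right h3
      exact loc3 hp hq' hr' h5 hpq hqr (he p hpR) (he q hqR) (he r hrR) h1' h2' h3' h0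
    rcases lt_or_gt_of_ne hxy with h | h
    · have := key x y h hq
      omega
    · have := key y x h (by rw [hq]; exact Finset.pair_comm x y)
      omega
  · have := locM R hR e he p h5 hmin hdiv hk
    omega

end Pool.Agent.SigRad
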