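import Pool.Agent.SigRad.Seeds

/-!
# MP_b10093_nt (helper21): the number of solutions of `σ(n) = rad(n)^2` up to `x` is `O(x^(1/8 + ε))`
-/

set_option autoImplicit false

namespace Pool.Agent.SigRad

open Finset ArithmeticFunction

theorem sum_bound {ε : ℝ} (hε : 0 < ε) : ∃ C : ℝ, 0 < C ∧ ∀ F : Finset ℕ, (∀ n ∈ F, Sol n) →
    ∑ n ∈ F, (n : ℝ) ^ (-(1 / 8 + ε)) ≤ C := by
  classical
  obtain ⟨C, hC, htree⟩ := tree_sum (δ := ε / 2) (by linarith)
  set t : ℝ := 1 / 8 + ε / 2 with ht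
  have ht0 : 0 < t := by rw [ht]; linarith
  set f : ℕ → ℝ := fun p => (65536 : ℝ) ^ t * (p : ℝ) ^ (-(8 * t)) with hf
  have hf0 : ∀ p, 0 ≤ f p := fun p => by rw [hf]; positivity
  have hfs : Summable f := by
    refine Summable.mul_left _ (Real.summable_nat_rpow.2 ?_)
    rw [ht]
    linarith
  refine ⟨C * Real.exp (∑' p, f p), by positivity, fun F hF => ?_⟩
  have hch : ∀ n : ℕ, ∃ S : Finset ℕ, n ∈ F → (Tr S n ∧ (∏ p ∈ S, p) ^ 8 ≤ 65536 ^ S.card * n) := by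
    intro n
    by_cases hn : n ∈ F
    · obtain ⟨S, hS⟩ := seeds (hF n hn)
      exact ⟨S, fun _ => hS⟩
    · exact ⟨∅, fun h => absurd h hn⟩
  choose S hS using hch
  -- one number
  have hone : ∀ n ∈ F, (n : ℝ) ^ (-(1 / 8 + ε)) ≤ (n : ℝ) ^ (-(ε / 2)) * ∏ p ∈ S n, f p := by
    intro n hn
    obtain ⟨hT, hle⟩ := hS n hn
    have hn0 : (0 : ℝ) < n := by exact_mod_cast hT.pos
    have hP0 : (0 : ℝ) < ∏ p ∈ S n, (p : ℝ) :=
      Finset.prod_pos fun p hp => by exact_mod_cast (hT.seed p hp).1.pos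
    have e1 : (n : ℝ) ^ (-(1 / 8 + ε)) = (n : ℝ) ^ (-(ε / 2)) * (n : ℝ) ^ (-t) := by
      rw [← Real.rpow_add hn0]
      congr 1
      rw [ht]
      ring
    rw [e1]
    refine mul_le_mul_of_nonneg_left ?_ (Real.rpow_nonneg hn0.le _)
    have hle' : (∏ p ∈ S n, (p : ℝ)) ^ 8 ≤ (65536 : ℝ) ^ (S n).card * (n : ℝ) := by
      have h0 := (Nat.cast_le (α := ℝ)).2 hle
      push_cast at h0
      exact h0
    have e2 : (∏ p ∈ S n, (p : ℝ)) ^ 8 / 65536 ^ (S n).card ≤ n := by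
      rw [div_le_iff₀ (by positivity)]
      linarith
    have e3 : (n : ℝ) ^ (-t) ≤ ((∏ p ∈ S n, (p : ℝ)) ^ 8 / 65536 ^ (S n).card) ^ (-t) :=
      Real.rpow_le_rpow_of_nonpos (by positivity) e2 (by linarith)
    refine e3.trans (le_of_eq ?_)
    have e4 : ((∏ p ∈ S n, (p : ℝ)) ^ 8) ^ (-t) = ∏ p ∈ S n, (p : ℝ) ^ (-(8 * t)) := by
      rw [Real.finsetProd_rpow _ _ (fun p _ => Nat.cast_nonneg p), ← Real.rpow_natCast, ← Real.rpow_mul hP0.le]
      congr 1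
      push_cast
      ring
    have e5 : ((65536 : ℝ) ^ (S n).card) ^ (-t) = ((65536 : ℝ) ^ t) ^ (-((S n).card : ℝ)) := by
      rw [← Real.rpow_natCast, ← Real.rpow_mul (by norm_num), ← Real.rpow_mul (by norm_num)]
      congr 1
      ring
    have e6 : ((65536 : ℝ) ^ t) ^ (-((S n).card : ℝ)) = (((65536 : ℝ) ^ t) ^ (S n).card)⁻¹ := by
      rw [Real.rpow_neg (by positivity), Real.rpow_natCast]
    rw [hf]
    simp only
    rw [Finset.prod_mul_distrib, Finset.prod_const, Real.div_rpow (by positivity) (by positivity), e4, e5, e6,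
      div_inv_eq_mul, mul_comm]
  have hmaps : ∀ n ∈ F, S n ∈ F.image S := fun n hn => mem_image_of_mem _ hn
  set P : Finset ℕ := F.biUnion S with hP
  calc ∑ n ∈ F, (n : ℝ) ^ (-(1 / 8 + ε)) ≤ ∑ n ∈ F, (n : ℝ) ^ (-(ε / 2)) * ∏ p ∈ S n, f p := sum_le_sum hone
    _ = ∑ T ∈ F.image S, ∑ n ∈ F.filter (fun n => S n = T), (n : ℝ) ^ (-(ε / 2)) * ∏ p ∈ S n, f p :=
        (sum_fiberwise_of_maps_to hmaps _).symm
    _ ≤ ∑ T ∈ F.image S, C * ∏ p ∈ T, f p := by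
        refine sum_le_sum fun T _ => ?_
        have e1 : ∑ n ∈ F.filter (fun n => S n = T), (n : ℝ) ^ (-(ε / 2)) * ∏ p ∈ S n, f p =
            (∑ n ∈ F.filter (fun n => S n = T), (n : ℝ) ^ (-(ε / 2))) * ∏ p ∈ T, f p := by
          rw [Finset.sum_mul]
          refine sum_congr rfl fun n hn => ?_
          rw [(mem_filter.1 hn).2]
        rw [e1]
        refine mul_le_mul_of_nonneg_right (htree T _ ?_) (Finset.prod_nonneg fun p _ => hf0 p)
        intro n hn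
        rw [mem_filter] at hn
        rw [← hn.2]
        exact (hS n hn.1).1
    _ = C * ∑ T ∈ F.image S, ∏ p ∈ T, f p := by rw [mul_sum]
    _ ≤ C * ∑ T ∈ P.powerset, ∏ p ∈ T, f p := by
        refine mul_le_mul_of_nonneg_left ?_ hC.le
        refine sum_le_sum_of_subset_of_nonneg ?_ fun T _ _ => Finset.prod_nonneg fun p _ => hf0 p
        intro T hT
        obtain ⟨n, hn, rfl⟩ := mem_image.1 hT
        rw [mem_powerset, hP]
        exact subset_biUnion_of_mem S hn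
    _ = C * ∏ p ∈ P, (1 + f p) := by rw [Finset.prod_one_add]
    _ ≤ C * Real.exp (∑' p, f p) := by
        refine mul_le_mul_of_nonneg_left ?_ hC.le
        calc ∏ p ∈ P, (1 + f p) ≤ ∏ p ∈ P, Real.exp (f p) :=
              Finset.prod_le_prod (fun p _ => by linarith [hf0 p]) fun p _ => by
                rw [add_comm]; exact Real.add_one_le_exp _
          _ = Real.exp (∑ p ∈ P, f p) := (Real.exp_sum _ _).symm
          _ ≤ _ := Real.exp_le_exp.2 (hfs.sum_le_tsum _ fun p _ => hf0 p)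

/-- **the number of solutions** -/
theorem count {ε : ℝ} (hε : 0 < ε) : ∃ C : ℝ, 0 < C ∧ ∀ x : ℝ, 1 ≤ x →
    ({n : ℕ | 0 < n ∧ (n : ℝ) ≤ x ∧ sigma 1 n = (UniqueFactorizationMonoid.radical n) ^ 2}.ncard : ℝ) ≤
      C * x ^ (1 / 8 + ε) := by
  classical
  obtain ⟨C, hC, h⟩ := sum_bound hε
  refine ⟨C, hC, fun x hx => ?_⟩
  have hx0 : 0 < x := by linarith
  set F : Finset ℕ := (Finset.Icc 1 ⌊x⌋₊).filter fun n => Sol n with hF
  have hset : {n : ℕ | 0 < n ∧ (n : ℝ) ≤ x ∧ sigma 1 n = (UniqueFactorizationMonoid.radical n) ^ 2} = F := by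
    ext n
    rw [Set.mem_ofPred_eq, Finset.mem_coe, hF, mem_filter, Finset.mem_Icc, Nat.le_floor_iff hx0.le]
    unfold Sol
    rw [Nat.radical_eq_prod_primeFactors]
    constructor
    · rintro ⟨h1, h2, h3⟩
      exact ⟨⟨h1, h2⟩, h1, h3⟩
    · rintro ⟨⟨_, h2⟩, h1, h3⟩
      exact ⟨h1, h2, h3⟩
  rw [hset, Set.ncard_coe_finset]
  have h1 := h F fun n hn => (mem_filter.1 hn).2
  have h2 : (F.card : ℝ) * x ^ (-(1 / 8 + ε)) ≤ ∑ n ∈ F, (n : ℝ) ^ (-(1 / 8 + ε)) := by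
    rw [← nsmul_eq_mul, ← Finset.sum_const]
    refine sum_le_sum fun n hn => ?_
    rw [hF, mem_filter, Finset.mem_Icc, Nat.le_floor_iff hx0.le] at hn
    have hn0 : (0 : ℝ) < n := by exact_mod_cast hn.2.1
    exact Real.rpow_le_rpow_of_nonpos hn0 hn.1.2 (by linarith)
  have h3 := h2.trans h1
  rw [Real.rpow_neg hx0.le, ← div_eq_mul_inv, div_le_iff₀ (Real.rpow_pos_of_pos hx0 _)] at h3
  exact h3

end Pool.Agent.SigRad
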