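import Mathlib

/-!
# MP_b10093_nt (helper21): the sum over all numbers generated by a seed

`V n` = the prime factors of `n`.  `Tr S n`: all primes of `S` divide `n`; for every unitary divisor `a` of `n` the primes
of `σ(a)` divide `n`; and if `a ≠ n`, some prime of `S` or of `σ(a)` does not divide `a`.
-/

set_option autoImplicit false

namespace Pool.Agent.SigRad

open Finset ArithmeticFunction

/-- the numbers generated by the primes in `S` -/
structure Tr (S : Finset ℕ) (n : ℕ) : Prop where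
  pos : 0 < n
  seed : ∀ p ∈ S, p.Prime ∧ p ∣ n
  cl : ∀ a, a ∣ n → Nat.Coprime a (n / a) → ∀ p : ℕ, p.Prime → p ∣ sigma 1 a → p ∣ n
  gen : ∀ a, a ∣ n → Nat.Coprime a (n / a) → a ≠ n → ∃ p : ℕ, p.Prime ∧ ¬ p ∣ a ∧ (p ∈ S ∨ p ∣ sigma 1 a)

/-- the primes that must be added to `a` -/
def nxt (S : Finset ℕ) (a : ℕ) : Finset ℕ := (S ∪ (sigma 1 a).primeFactors).filter fun p => p.Prime ∧ ¬ p ∣ a

theorem mem_nxt {S : Finset ℕ} {a p : ℕ} (ha : 0 < a) :
    p ∈ nxt S a ↔ p.Prime ∧ ¬ p ∣ a ∧ (p ∈ S ∨ p ∣ sigma 1 a) := by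
  unfold nxt
  have hs : sigma 1 a ≠ 0 := (sigma_pos 1 a (by omega)).ne'
  rw [mem_filter, mem_union, Nat.mem_primeFactors]
  constructor
  · rintro ⟨h1, h2, h3⟩
    refine ⟨h2, h3, ?_⟩
    rcases h1 with h | h
    · exact Or.inl h
    · exact Or.inr h.2.1
  · rintro ⟨h1, h2, h3⟩
    refine ⟨?_, h1, h2⟩
    rcases h3 with h | h
    · exact Or.inl h
    · exact Or.inr ⟨h1, h, hs⟩

/-- the weight of a prime -/
noncomputable def cw (δ : ℝ) (p : ℕ) : ℝ := max 1 (1 / ((p : ℝ) ^ δ - 1))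

/-- the small primes -/
noncomputable def sm (δ : ℝ) : Finset ℕ := (range (⌈(2 : ℝ) ^ (1 / δ)⌉₊ + 1)).filter Nat.Prime

noncomputable def wt (δ : ℝ) (a : ℕ) : ℝ := ∏ p ∈ (sm δ).filter (fun p => ¬ p ∣ a), cw δ p

theorem cw_ge (δ : ℝ) (p : ℕ) : 1 ≤ cw δ p := le_max_left _ _

theorem wt_nonneg (δ : ℝ) (a : ℕ) : 0 ≤ wt δ a :=
  Finset.prod_nonneg fun p _ => zero_le_one.trans (cw_ge δ p)

theorem wt_ge (δ : ℝ) (a : ℕ) : 1 ≤ wt δ a := by
  unfold wt
  calc (1 : ℝ) = ∏ _p ∈ (sm δ).filter (fun p => ¬ p ∣ a), (1 : ℝ) := by rw [Finset.prod_const_one]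
    _ ≤ _ := Finset.prod_le_prod (fun _ _ => zero_le_one) fun p _ => cw_ge δ p

/-- geometric sums -/
theorem geo {p : ℕ} (hp : p.Prime) {δ : ℝ} (hδ : 0 < δ) (E : Finset ℕ) (hE : ∀ e ∈ E, 1 ≤ e) :
    ∑ e ∈ E, ((p : ℝ) ^ (-δ)) ^ e ≤ 1 / ((p : ℝ) ^ δ - 1) := by
  have hp1 : (1 : ℝ) < p := by exact_mod_cast hp.one_lt
  have hp0 : (0 : ℝ) < p := by linarith
  have h1 : 1 < (p : ℝ) ^ δ := Real.one_lt_rpow hp1 hδ
  set r : ℝ := (p : ℝ) ^ (-δ) with hr
  have hr0 : 0 < r := Real.rpow_pos_of_pos hp0 _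
  have hr1 : r = 1 / (p : ℝ) ^ δ := by rw [hr, Real.rpow_neg hp0.le, one_div]
  have hr2 : r < 1 := by
    rw [hr1, div_lt_one (by linarith)]
    exact h1
  have hs := summable_geometric_of_lt_one hr0.le hr2
  have h2 : ∑ e ∈ E, r ^ e ≤ r * ∑' n : ℕ, r ^ n := by
    have e1 : ∑ e ∈ E, r ^ e = r * ∑ e ∈ E.image (fun e => e - 1), r ^ e := by
      rw [Finset.sum_image, Finset.mul_sum]
      · refine Finset.sum_congr rfl fun e he => ?_
        rw [← pow_succ', Nat.sub_add_cancel (hE e he)]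
      · intro x hx y hy hxy
        have h3 := hE x hx
        have h4 := hE y hy
        simp only at hxy
        omega
    rw [e1]
    exact mul_le_mul_of_nonneg_left (hs.sum_le_tsum _ fun n _ => pow_nonneg hr0.le n) hr0.le
  rw [tsum_geometric_of_lt_one hr0.le hr2] at h2
  refine h2.trans (le_of_eq ?_)
  rw [hr1]
  have h3 : (p : ℝ) ^ δ ≠ 0 := by positivity
  have h4 : (p : ℝ) ^ δ - 1 ≠ 0 := by linarith
  field_simp

/-- one step: the weights -/
theorem step_wt {p : ℕ} (hp : p.Prime) {δ : ℝ} (hδ : 0 < δ) (a : ℕ) (ha : 0 < a) (hpa : ¬ p ∣ a) (E : Finset ℕ)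
    (hE : ∀ e ∈ E, 1 ≤ e) :
    ∑ e ∈ E, (((a * p ^ e : ℕ) : ℝ) ^ (-δ)) * wt δ (a * p ^ e) ≤ (a : ℝ) ^ (-δ) * wt δ a := by
  have ha0 : (0 : ℝ) < a := by exact_mod_cast ha
  have hp0 : (0 : ℝ) < p := by exact_mod_cast hp.pos
  have hpow : ∀ e : ℕ, ((a * p ^ e : ℕ) : ℝ) ^ (-δ) = (a : ℝ) ^ (-δ) * ((p : ℝ) ^ (-δ)) ^ e := by
    intro e
    push_cast
    rw [Real.mul_rpow ha0.le (by positivity), ← Real.rpow_natCast, ← Real.rpow_natCast, ← Real.rpow_mul hp0.le,
      ← Real.rpow_mul hp0.le, mul_comm (e : ℝ)]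
  have hdvd : ∀ e : ℕ, 1 ≤ e → ∀ q : ℕ, q.Prime → (q ∣ a * p ^ e ↔ q ∣ a ∨ q = p) := by
    intro e he q hq
    rw [Nat.Prime.dvd_mul hq]
    refine or_congr_right ⟨fun h => ?_, fun h => ?_⟩
    · exact (Nat.prime_dvd_prime_iff_eq hq hp).1 (hq.dvd_of_dvd_pow h)
    · rw [h]; exact dvd_pow_self p (by omega)
  have hsplit : ∃ W : ℝ, 0 ≤ W ∧ (∀ e ∈ E, wt δ (a * p ^ e) = W) ∧ 1 / ((p : ℝ) ^ δ - 1) * W ≤ wt δ a := by
    refine ⟨∏ q ∈ (sm δ).filter (fun q => ¬ q ∣ a ∧ q ≠ p), cw δ q,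
      Finset.prod_nonneg fun p _ => zero_le_one.trans (cw_ge δ p), ?_, ?_⟩
    · intro e he
      unfold wt
      refine Finset.prod_congr ?_ fun _ _ => rfl
      refine Finset.filter_congr fun q hq => ?_
      have hqp : q.Prime := (mem_filter.1 hq).2
      rw [hdvd e (hE e he) q hqp]
      push Not
      rfl
    · by_cases hpB : p ∈ sm δ
      · have e1 : wt δ a = cw δ p * ∏ q ∈ (sm δ).filter (fun q => ¬ q ∣ a ∧ q ≠ p), cw δ q := by
          unfold wt
          have hmem : p ∈ (sm δ).filter (fun q => ¬ q ∣ a) := mem_filter.2 ⟨hpB, hpa⟩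
          rw [← Finset.mul_prod_erase _ _ hmem]
          congr 1
          refine Finset.prod_congr ?_ fun _ _ => rfl
          ext q
          simp only [mem_erase, mem_filter]
          tauto
        rw [e1]
        exact mul_le_mul_of_nonneg_right (le_max_right _ _)
          (Finset.prod_nonneg fun p _ => zero_le_one.trans (cw_ge δ p))
      · -- `p` is large
        have h1 : 1 / ((p : ℝ) ^ δ - 1) ≤ 1 := by
          have h2 : (2 : ℝ) ≤ (p : ℝ) ^ δ := by
            have h3 : ⌈(2 : ℝ) ^ (1 / δ)⌉₊ ≤ p := by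
              by_contra hlt
              push Not at hlt
              exact hpB (mem_filter.2 ⟨mem_range.2 (by omega), hp⟩)
            have h4 : (2 : ℝ) ^ (1 / δ) ≤ p := by
              exact (Nat.le_ceil _).trans (by exact_mod_cast h3)
            calc (2 : ℝ) = ((2 : ℝ) ^ (1 / δ)) ^ δ := by
                  rw [← Real.rpow_mul (by norm_num), one_div_mul_cancel hδ.ne', Real.rpow_one]
              _ ≤ (p : ℝ) ^ δ := Real.rpow_le_rpow (by positivity) h4 hδ.le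
          rw [div_le_one (by linarith)]
          linarith
        have e1 : wt δ a = ∏ q ∈ (sm δ).filter (fun q => ¬ q ∣ a ∧ q ≠ p), cw δ q := by
          unfold wt
          refine Finset.prod_congr ?_ fun _ _ => rfl
          refine Finset.filter_congr fun q hq => ?_
          constructor
          · intro h
            exact ⟨h, fun h2 => hpB (h2 ▸ hq)⟩
          · exact fun h => h.1
        rw [← e1]
        exact mul_le_of_le_one_left (wt_nonneg δ a) h1
  obtain ⟨W, hW0, hW, hWle⟩ := hsplit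
  have e2 : ∑ e ∈ E, (((a * p ^ e : ℕ) : ℝ) ^ (-δ)) * wt δ (a * p ^ e) =
      (a : ℝ) ^ (-δ) * ((∑ e ∈ E, ((p : ℝ) ^ (-δ)) ^ e) * W) := by
    rw [Finset.sum_mul, Finset.mul_sum]
    refine Finset.sum_congr rfl fun e he => ?_
    rw [hpow e, hW e he]
    ring
  rw [e2]
  refine mul_le_mul_of_nonneg_left ?_ (Real.rpow_nonneg ha0.le _)
  exact (mul_le_mul_of_nonneg_right (geo hp hδ E hE) hW0).trans hWle

/-- the next unitary divisor -/
theorem unit_step {a n p : ℕ} (ha : 0 < a) (hn : 0 < n) (h1 : a ∣ n) (h2 : Nat.Coprime a (n / a)) (hp : p.Prime)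
    (hpa : ¬ p ∣ a) (hpn : p ∣ n) :
    a * p ^ n.factorization p ∣ n ∧ Nat.Coprime (a * p ^ n.factorization p) (n / (a * p ^ n.factorization p)) := by
  have hcop : Nat.Coprime a (p ^ n.factorization p) :=
    Nat.Coprime.pow_right _ ((Nat.Prime.coprime_iff_not_dvd hp).2 hpa).symm
  have hd : a * p ^ n.factorization p ∣ n := hcop.mul_dvd_of_dvd_of_dvd h1 (Nat.ordProj_dvd n p)
  refine ⟨hd, ?_⟩
  obtain ⟨m, hm⟩ := hd
  have hpos : 0 < a * p ^ n.factorization p := Nat.mul_pos ha (pow_pos hp.pos _)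
  have e1 : n / (a * p ^ n.factorization p) = m := Nat.div_eq_of_eq_mul_right hpos hm
  have e2 : n / a = p ^ n.factorization p * m :=
    Nat.div_eq_of_eq_mul_right ha (by rw [← mul_assoc]; exact hm)
  rw [e1]
  rw [e2] at h2
  refine Nat.Coprime.mul_left (Nat.Coprime.coprime_mul_left_right h2) ?_
  refine Nat.Coprime.pow_left _ ((Nat.Prime.coprime_iff_not_dvd hp).2 fun hpm => ?_)
  obtain ⟨t, ht⟩ := hpm
  have h3 : p ^ (n.factorization p + 1) ∣ n := by
    refine ⟨a * t, ?_⟩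
    have h4 : n = a * p ^ n.factorization p * (p * t) := by rw [← ht]; exact hm
    rw [pow_succ]
    refine h4.trans ?_
    ring
  exact Nat.pow_succ_factorization_not_dvd hn.ne' hp h3

theorem card_step {a p e : ℕ} (hp : p.Prime) (hpa : ¬ p ∣ a) (he : 1 ≤ e) :
    (a * p ^ e).primeFactors.card = a.primeFactors.card + 1 := by
  have hcop : Nat.Coprime a (p ^ e) :=
    Nat.Coprime.pow_right _ ((Nat.Prime.coprime_iff_not_dvd hp).2 hpa).symm
  rw [Nat.Coprime.primeFactors_mul hcop, Nat.primeFactors_prime_pow (by omega) hp]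
  rw [Finset.card_union_of_disjoint, Finset.card_singleton]
  rw [Finset.disjoint_singleton_right, Nat.mem_primeFactors]
  exact fun h => hpa h.2.1

theorem card_lt {a n p : ℕ} (hn : 0 < n) (h1 : a ∣ n) (hp : p.Prime) (hpa : ¬ p ∣ a) (hpn : p ∣ n) :
    a.primeFactors.card < n.primeFactors.card := by
  refine Finset.card_lt_card ⟨Nat.primeFactors_mono h1 hn.ne', fun h => ?_⟩
  exact hpa (Nat.mem_primeFactors.1 (h (Nat.mem_primeFactors.2 ⟨hp, hpn, hn.ne'⟩))).2.1

/-- **the sum over a tree** -/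
theorem tree (S : Finset ℕ) {δ : ℝ} (hδ : 0 < δ) (K : ℕ) : ∀ (a : ℕ), 0 < a → ∀ F : Finset ℕ,
    (∀ n ∈ F, Tr S n ∧ a ∣ n ∧ Nat.Coprime a (n / a) ∧ n.primeFactors.card ≤ a.primeFactors.card + K) →
    ∑ n ∈ F, (n : ℝ) ^ (-δ) ≤ (a : ℝ) ^ (-δ) * wt δ a := by
  induction K with
  | zero =>
    intro a ha F hF
    have ha0 : (0 : ℝ) < a := by exact_mod_cast ha
    have hsub : F ⊆ {a} := by
      intro n hn
      obtain ⟨h1, h2, h3, h4⟩ := hF n hn
      rw [mem_singleton]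
      by_contra hne
      obtain ⟨p, hp, hpa, hps⟩ := h1.gen a h2 h3 (Ne.symm hne)
      have hpn : p ∣ n := by
        rcases hps with h | h
        · exact (h1.seed p h).2
        · exact h1.cl a h2 h3 p hp h
      have := card_lt h1.pos h2 hp hpa hpn
      omega
    calc ∑ n ∈ F, (n : ℝ) ^ (-δ) ≤ ∑ n ∈ {a}, (n : ℝ) ^ (-δ) :=
          Finset.sum_le_sum_of_subset_of_nonneg hsub fun n _ _ => Real.rpow_nonneg (Nat.cast_nonneg _) _
      _ = (a : ℝ) ^ (-δ) := Finset.sum_singleton _ _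
      _ ≤ _ := le_mul_of_one_le_right (Real.rpow_nonneg ha0.le _) (wt_ge δ a)
  | succ K ih =>
    intro a ha F hF
    have ha0 : (0 : ℝ) < a := by exact_mod_cast ha
    by_cases hne : (nxt S a).Nonempty
    · obtain ⟨p, hpn⟩ := hne
      rw [mem_nxt ha] at hpn
      obtain ⟨hp, hpa, hps⟩ := hpn
      have hall : ∀ n ∈ F, p ∣ n := by
        intro n hn
        obtain ⟨h1, h2, h3, _⟩ := hF n hn
        rcases hps with h | h
        · exact (h1.seed p h).2
        · exact h1.cl a h2 h3 p hp h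
      set E : Finset ℕ := F.image fun n => n.factorization p with hE
      have hE1 : ∀ e ∈ E, 1 ≤ e := by
        intro e he
        obtain ⟨n, hn, rfl⟩ := mem_image.1 he
        exact (hp.dvd_iff_one_le_factorization (hF n hn).1.pos.ne').1 (hall n hn)
      have hmaps : ∀ n ∈ F, n.factorization p ∈ E := fun n hn => mem_image_of_mem _ hn
      rw [← Finset.sum_fiberwise_of_maps_to hmaps]
      refine (Finset.sum_le_sum fun e he => ?_).trans (step_wt hp hδ a ha hpa E hE1)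
      refine ih (a * p ^ e) (Nat.mul_pos ha (pow_pos hp.pos _)) _ ?_
      intro n hn
      rw [mem_filter] at hn
      obtain ⟨h1, h2, h3, h4⟩ := hF n hn.1
      obtain ⟨g1, g2⟩ := unit_step ha h1.pos h2 h3 hp hpa (hall n hn.1)
      rw [hn.2] at g1 g2
      refine ⟨h1, g1, g2, ?_⟩
      rw [card_step hp hpa (hE1 e he)]
      omega
    · have hsub : F ⊆ {a} := by
        intro n hn
        obtain ⟨h1, h2, h3, h4⟩ := hF n hn
        rw [mem_singleton]
        by_contra hne'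
        obtain ⟨p, hp, hpa, hps⟩ := h1.gen a h2 h3 (Ne.symm hne')
        exact hne ⟨p, (mem_nxt ha).2 ⟨hp, hpa, hps⟩⟩
      calc ∑ n ∈ F, (n : ℝ) ^ (-δ) ≤ ∑ n ∈ {a}, (n : ℝ) ^ (-δ) :=
            Finset.sum_le_sum_of_subset_of_nonneg hsub fun n _ _ => Real.rpow_nonneg (Nat.cast_nonneg _) _
        _ = (a : ℝ) ^ (-δ) := Finset.sum_singleton _ _
        _ ≤ _ := le_mul_of_one_le_right (Real.rpow_nonneg ha0.le _) (wt_ge δ a)

/-- the constant -/
theorem tree_sum {δ : ℝ} (hδ : 0 < δ) : ∃ C : ℝ, 0 < C ∧ ∀ S F : Finset ℕ, (∀ n ∈ F, Tr S n) →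
    ∑ n ∈ F, (n : ℝ) ^ (-δ) ≤ C := by
  refine ⟨wt δ 1, lt_of_lt_of_le one_pos (wt_ge δ 1), fun S F hF => ?_⟩
  have h := tree S hδ (F.sup fun n => n.primeFactors.card) 1 one_pos F ?_
  · simpa using h
  · intro n hn
    refine ⟨hF n hn, one_dvd _, Nat.coprime_one_left _, ?_⟩
    exact (le_sup (f := fun n => n.primeFactors.card) hn).trans (Nat.le_add_left _ _)

end Pool.Agent.SigRad
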