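import Pool.Agent.SigRad.Local
import Pool.Agent.SigRad.Tree

/-!
# MP_b10093_nt (helper21): seeds

Every solution `n` of `σ(n) = rad(n)^2` is generated by a set `S` of primes with `(∏_{p ∈ S} p)^8 ≤ 65536^|S| n`.
-/

set_option autoImplicit false

namespace Pool.Agent.SigRad

open Finset ArithmeticFunction

/-- the solutions, with the radical as a product -/
def Sol (n : ℕ) : Prop := 0 < n ∧ sigma 1 n = (∏ p ∈ n.primeFactors, p) ^ 2

theorem sigma_eq {n : ℕ} (hn : 0 < n) : sigma 1 n = ∏ p ∈ n.primeFactors, sg p (n.factorization p) := by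
  rw [isMultiplicative_sigma.multiplicative_factorization _ hn.ne', Finsupp.prod, Nat.support_factorization]
  exact Finset.prod_congr rfl fun p hp => sg_eq (Nat.prime_of_mem_primeFactors hp) _

theorem self_eq {n : ℕ} (hn : 0 < n) : ∏ p ∈ n.primeFactors, p ^ n.factorization p = n := by
  conv_rhs => rw [← Nat.prod_factorization_pow_eq_self hn.ne']
  rfl

/-- unitary divisors -/
theorem sigma_unit {n a : ℕ} (h1 : a ∣ n) (h2 : Nat.Coprime a (n / a)) :
    sigma 1 n = sigma 1 a * sigma 1 (n / a) := by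
  rw [← isMultiplicative_sigma.map_mul_of_coprime h2, Nat.mul_div_cancel' h1]

theorem fac_unit {n a p : ℕ} (hn : 0 < n) (h1 : a ∣ n) (h2 : Nat.Coprime a (n / a)) (hp : p.Prime) (hpa : p ∣ a) :
    a.factorization p = n.factorization p := by
  obtain ⟨b, rfl⟩ := h1
  have ha : 0 < a := Nat.pos_of_mul_pos_right hn
  have hb : 0 < b := Nat.pos_of_mul_pos_left hn
  rw [Nat.mul_div_cancel_left _ ha] at h2
  rw [Nat.factorization_mul ha.ne' hb.ne']
  have : b.factorization p = 0 := by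
    apply Nat.factorization_eq_zero_of_not_dvd
    intro h
    exact Nat.Prime.not_coprime_iff_dvd.2 ⟨p, hp, hpa, h⟩ h2
  simp [this]

theorem sg_dvd {n a p : ℕ} (hn : 0 < n) (h1 : a ∣ n) (h2 : Nat.Coprime a (n / a)) (hp : p.Prime) (hpa : p ∣ a) :
    sg p (n.factorization p) ∣ sigma 1 a := by
  have ha : 0 < a := Nat.pos_of_dvd_of_pos h1 hn
  rw [sigma_eq ha, ← fac_unit hn h1 h2 hp hpa]
  exact Finset.dvd_prod_of_mem _ (Nat.mem_primeFactors.2 ⟨hp, hpa, ha.ne'⟩)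

/-- edges -/
def Ed (n a b : ℕ) : Prop := b ∈ n.primeFactors ∧ a ∈ n.primeFactors ∧ b ∣ sg a (n.factorization a)

/-- paths -/
def Re (n : ℕ) : ℕ → ℕ → Prop := Relation.ReflTransGen (Ed n)

/-- generating sets -/
def GenS (n : ℕ) (S : Finset ℕ) : Prop := S ⊆ n.primeFactors ∧ ∀ v ∈ n.primeFactors, ∃ p ∈ S, Re n p v

theorem path_cross {α : Type} {r : α → α → Prop} (P : α → Prop) {s v : α} (h : Relation.ReflTransGen r s v) (hs : P s)
    (hv : ¬ P v) : ∃ u w, r u w ∧ P u ∧ ¬ P w := by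
  induction h with
  | refl => exact absurd hs hv
  | tail h1 h2 ih =>
    rename_i b c
    by_cases hb : P b
    · exact ⟨b, c, h2, hb, hv⟩
    · exact ih hb

theorem dvd_rad {n p : ℕ} (hp : p.Prime) (h : p ∣ (∏ q ∈ n.primeFactors, q) ^ 2) : p ∈ n.primeFactors := by
  have h1 := hp.dvd_of_dvd_pow h
  obtain ⟨q, hq, hpq⟩ := (Prime.dvd_finsetProd_iff hp.prime _).1 h1
  rwa [(Nat.prime_dvd_prime_iff_eq hp (Nat.prime_of_mem_primeFactors hq)).1 hpq]

theorem tr_of_gen {n : ℕ} (h : Sol n) {S : Finset ℕ} (hS : GenS n S) : Tr S n where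
  pos := h.1
  seed := fun p hp => by
    have := Nat.mem_primeFactors.1 (hS.1 hp)
    exact ⟨this.1, this.2.1⟩
  cl := fun a h1 h2 p hp hpa => by
    have h3 : p ∣ (∏ q ∈ n.primeFactors, q) ^ 2 := by
      rw [← h.2, sigma_unit h1 h2]
      exact hpa.mul_right _
    exact (Nat.mem_primeFactors.1 (dvd_rad hp h3)).2.1
  gen := fun a h1 h2 hne => by
    have ha : 0 < a := Nat.pos_of_dvd_of_pos h1 h.1
    have hna : n / a ≠ 1 := by
      intro h3
      apply hne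
      have := Nat.div_mul_cancel h1
      rw [h3, one_mul] at this
      exact this
    obtain ⟨v, hv, hvd⟩ := Nat.exists_prime_and_dvd hna
    have hva : ¬ v ∣ a := fun h3 => Nat.Prime.not_coprime_iff_dvd.2 ⟨v, hv, h3, hvd⟩ h2
    have hvn : v ∈ n.primeFactors :=
      Nat.mem_primeFactors.2 ⟨hv, hvd.trans (Nat.div_dvd_of_dvd h1), h.1.ne'⟩
    obtain ⟨s, hs, hsv⟩ := hS.2 v hvn
    have hsp := Nat.mem_primeFactors.1 (hS.1 hs)
    by_cases hsa : s ∣ a
    · obtain ⟨u, w, huw, hu, hw⟩ := path_cross (fun x => x ∣ a) hsv hsa hva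
      obtain ⟨e1, e2, e3⟩ := huw
      exact ⟨w, Nat.prime_of_mem_primeFactors e1, hw, Or.inr
        (e3.trans (sg_dvd h.1 h1 h2 (Nat.prime_of_mem_primeFactors e2) hu))⟩
    · exact ⟨s, hsp.1, hsa, Or.inl hs⟩

/-- a minimal generating set -/
theorem exists_min (n : ℕ) : ∃ S : Finset ℕ, GenS n S ∧ (∀ S', GenS n S' → S.card ≤ S'.card) ∧
    ∀ S', GenS n S' → S'.card = S.card → ∑ p ∈ S, p ≤ ∑ p ∈ S', p := by
  classical
  have h0 : GenS n n.primeFactors := ⟨subset_rfl, fun v hv => ⟨v, hv, Relation.ReflTransGen.refl⟩⟩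
  set P := n.primeFactors.powerset.filter (GenS n) with hP
  have hmem : ∀ S, S ∈ P ↔ GenS n S := by
    intro S
    rw [hP, mem_filter, mem_powerset]
    exact ⟨fun h => h.2, fun h => ⟨h.1, h⟩⟩
  obtain ⟨S1, hS1, hmin1⟩ := P.exists_min_image Finset.card ⟨_, (hmem _).2 h0⟩
  obtain ⟨S, hS, hmin⟩ := (P.filter fun S => S.card = S1.card).exists_min_image (fun S => ∑ p ∈ S, p)
    ⟨S1, mem_filter.2 ⟨hS1, rfl⟩⟩
  rw [mem_filter] at hS
  refine ⟨S, (hmem _).1 hS.1, fun S' hS' => ?_, fun S' hS' hc => ?_⟩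
  · rw [hS.2]; exact hmin1 S' ((hmem _).2 hS')
  · exact hmin S' (mem_filter.2 ⟨(hmem _).2 hS', hc.trans hS.2⟩)

theorem exch {n : ℕ} {S : Finset ℕ} (hS : GenS n S) {p q : ℕ} (hq : q ∈ n.primeFactors) (hqp : Re n q p) :
    GenS n (insert q (S.erase p)) := by
  refine ⟨?_, fun v hv => ?_⟩
  · intro x hx
    rw [mem_insert] at hx
    rcases hx with rfl | hx
    · exact hq
    · exact hS.1 (mem_of_mem_erase hx)
  · obtain ⟨s, hs, hsv⟩ := hS.2 v hv
    by_cases hsp : s = p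
    · subst hsp
      exact ⟨q, mem_insert_self _ _, Relation.ReflTransGen.trans hqp hsv⟩
    · exact ⟨s, mem_insert_of_mem (mem_erase.2 ⟨hsp, hs⟩), hsv⟩

theorem seed_le {n : ℕ} {S : Finset ℕ} (hS : GenS n S) (h1 : ∀ S', GenS n S' → S.card ≤ S'.card)
    (h2 : ∀ S', GenS n S' → S'.card = S.card → ∑ p ∈ S, p ≤ ∑ p ∈ S', p) {p q : ℕ} (hp : p ∈ S)
    (hq : q ∈ n.primeFactors) (hqp : Re n q p) : p ≤ q := by
  have hG := exch hS hq hqp
  have hc := h1 _ hG
  have hce : (S.erase p).card = S.card - 1 := card_erase_of_mem hp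
  have hpos : 0 < S.card := card_pos.2 ⟨p, hp⟩
  have hnm : q ∉ S.erase p := by
    intro hm
    rw [insert_eq_of_mem hm] at hc
    omega
  have hcard : (insert q (S.erase p)).card = S.card := by
    rw [card_insert_of_notMem hnm, hce]; omega
  have h3 := h2 _ hG hcard
  rw [sum_insert hnm, ← add_sum_erase S (fun x => x) hp] at h3
  omega

theorem seed_disj {n : ℕ} {S : Finset ℕ} (hS : GenS n S) (h1 : ∀ S', GenS n S' → S.card ≤ S'.card) {p p' q : ℕ}
    (hp : p ∈ S) (hp' : p' ∈ S) (hne : p ≠ p') (hq : q ∈ n.primeFactors) (hqp : Re n q p) (hqp' : Re n q p') :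
    False := by
  have hG : GenS n (insert q ((S.erase p).erase p')) := by
    refine ⟨?_, fun v hv => ?_⟩
    · intro x hx
      rw [mem_insert] at hx
      rcases hx with rfl | hx
      · exact hq
      · exact hS.1 (mem_of_mem_erase (mem_of_mem_erase hx))
    · obtain ⟨s, hs, hsv⟩ := hS.2 v hv
      by_cases hsp : s = p
      · subst hsp
        exact ⟨q, mem_insert_self _ _, Relation.ReflTransGen.trans hqp hsv⟩
      · by_cases hsp' : s = p'
        · subst hsp'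
          exact ⟨q, mem_insert_self _ _, Relation.ReflTransGen.trans hqp' hsv⟩
        · exact ⟨s, mem_insert_of_mem (mem_erase.2 ⟨hsp', mem_erase.2 ⟨hsp, hs⟩⟩), hsv⟩
  have hc := h1 _ hG
  have e1 : (S.erase p).card = S.card - 1 := card_erase_of_mem hp
  have e2 : ((S.erase p).erase p').card = (S.erase p).card - 1 :=
    card_erase_of_mem (mem_erase.2 ⟨hne.symm, hp'⟩)
  have e3 := card_insert_le q ((S.erase p).erase p')
  have e4 : 0 < (S.erase p).card := card_pos.2 ⟨p', mem_erase.2 ⟨hne.symm, hp'⟩⟩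
  omega

/-- the size inequality -/
theorem size_ineq {n : ℕ} (h : Sol n) (U : Finset ℕ) (hU : U ⊆ n.primeFactors) :
    (∏ q ∈ U, q ^ (n.factorization q - 1)) ^ 2 ≤ n := by
  classical
  set V := n.primeFactors with hV
  set e := n.factorization with he
  have hpr : ∀ q ∈ V, q.Prime := fun q hq => Nat.prime_of_mem_primeFactors hq
  have he1 : ∀ q ∈ V, 1 ≤ e q := fun q hq =>
    ((hpr q hq).dvd_iff_one_le_factorization h.1.ne').1 (Nat.mem_primeFactors.1 hq).2.1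
  set W := V \ U with hW
  have hsplit : ∀ f : ℕ → ℕ, ∏ q ∈ V, f q = (∏ q ∈ U, f q) * ∏ q ∈ W, f q := by
    intro f
    rw [hW, mul_comm]
    exact (Finset.prod_sdiff hU).symm
  have hWV : ∀ q ∈ W, q ∈ V := fun q hq => (mem_sdiff.1 hq).1
  have e1 : (∏ q ∈ U, sg q (e q)) * ∏ q ∈ W, sg q (e q) = (∏ q ∈ U, q) ^ 2 * (∏ q ∈ W, q) ^ 2 := by
    rw [← hsplit, ← sigma_eq h.1, h.2, hsplit, mul_pow]
  have hρW : 0 < ∏ q ∈ W, q := Finset.prod_pos fun q hq => (hpr q (hWV q hq)).pos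
  have hρU : 0 < ∏ q ∈ U, q := Finset.prod_pos fun q hq => (hpr q (hU hq)).pos
  have e2 : ∏ q ∈ W, q ≤ ∏ q ∈ W, q ^ e q := Finset.prod_le_prod' fun q hq => by
    calc q = q ^ 1 := (pow_one q).symm
      _ ≤ q ^ e q := Nat.pow_le_pow_right (hpr q (hWV q hq)).pos (he1 q (hWV q hq))
  have e3 : ∏ q ∈ W, q ^ e q ≤ ∏ q ∈ W, sg q (e q) := Finset.prod_le_prod' fun q _ => le_sg q (e q)
  have e4 : ∏ q ∈ U, q ^ e q ≤ ∏ q ∈ U, sg q (e q) := Finset.prod_le_prod' fun q _ => le_sg q (e q)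
  have e5 : ∏ q ∈ U, q ^ e q = (∏ q ∈ U, q) * ∏ q ∈ U, q ^ (e q - 1) := by
    rw [← Finset.prod_mul_distrib]
    refine Finset.prod_congr rfl fun q hq => ?_
    rw [← pow_succ', Nat.sub_add_cancel (he1 q (hU hq))]
  have e6 : (∏ q ∈ U, q ^ e q) * ∏ q ∈ W, q ^ e q = n := by
    rw [← hsplit]
    exact self_eq h.1
  set a := ∏ q ∈ U, q with ha
  set b := ∏ q ∈ W, q with hb
  set g := ∏ q ∈ U, q ^ (e q - 1) with hg
  set A := ∏ q ∈ U, sg q (e q) with hA
  set B := ∏ q ∈ W, sg q (e q) with hB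
  set nU := ∏ q ∈ U, q ^ e q with hnU
  set nW := ∏ q ∈ W, q ^ e q with hnW
  -- `A ≤ a^2 b`
  have e7 : A ≤ a ^ 2 * b := by
    have hB0 : 0 < B := lt_of_lt_of_le hρW (e2.trans e3)
    have : A * B ≤ a ^ 2 * b * B := by
      rw [e1]
      calc a ^ 2 * b ^ 2 = a ^ 2 * b * b := by ring
        _ ≤ a ^ 2 * b * B := Nat.mul_le_mul_left _ (e2.trans e3)
    exact le_of_mul_le_mul_right this hB0
  have e8 : nU ≤ a ^ 2 * nW := e4.trans (e7.trans (Nat.mul_le_mul_left _ e2))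
  have e9 : a ^ 2 * g ^ 2 ≤ a ^ 2 * n := by
    calc a ^ 2 * g ^ 2 = nU * nU := by rw [e5]; ring
      _ ≤ nU * (a ^ 2 * nW) := Nat.mul_le_mul_left _ e8
      _ = a ^ 2 * (nU * nW) := by ring
      _ = a ^ 2 * n := by rw [e6]
  exact le_of_mul_le_mul_left e9 (pow_pos hρU 2)

/-- **seeds** -/
theorem seeds {n : ℕ} (h : Sol n) : ∃ S : Finset ℕ, Tr S n ∧ (∏ p ∈ S, p) ^ 8 ≤ 65536 ^ S.card * n := by
  classical
  obtain ⟨S, hS, h1, h2⟩ := exists_min n
  refine ⟨S, tr_of_gen h hS, ?_⟩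
  set V := n.primeFactors with hV
  set e := n.factorization with he
  have hpr : ∀ q ∈ V, q.Prime := fun q hq => Nat.prime_of_mem_primeFactors hq
  have he1 : ∀ q ∈ V, 1 ≤ e q := fun q hq =>
    ((hpr q hq).dvd_iff_one_le_factorization h.1.ne').1 (Nat.mem_primeFactors.1 hq).2.1
  set R : ℕ → Finset ℕ := fun p => V.filter fun q => Re n q p with hR
  have hRV : ∀ p, R p ⊆ V := fun p => filter_subset _ _
  have hloc : ∀ p ∈ S, p ^ 4 ≤ 256 * ∏ q ∈ R p, q ^ (e q - 1) := by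
    intro p hp
    refine loc (R p) (fun q hq => hpr q (hRV p hq)) e (fun q hq => he1 q (hRV p hq)) p
      (mem_filter.2 ⟨hS.1 hp, Relation.ReflTransGen.refl⟩) ?_ ?_
    · intro q hq
      rw [hR, mem_filter] at hq
      exact seed_le hS h1 h2 hp hq.1 hq.2
    · intro q hq
      rw [hR, mem_filter] at hq
      have g1 : q ^ 2 ∣ ∏ r ∈ V, sg r (e r) := by
        rw [← sigma_eq h.1, h.2]
        exact pow_dvd_pow_of_dvd (Finset.dvd_prod_of_mem _ hq.1) 2
      rw [← Finset.prod_sdiff (hRV p)] at g1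
      refine (Nat.Coprime.pow_left 2 ?_).dvd_of_dvd_mul_left g1
      refine Nat.Coprime.prod_right fun r hr => ?_
      rw [Nat.Prime.coprime_iff_not_dvd (hpr q hq.1)]
      intro hd
      rw [mem_sdiff] at hr
      apply hr.2
      rw [hR, mem_filter]
      exact ⟨hr.1, Relation.ReflTransGen.head ⟨hq.1, hr.1, hd⟩ hq.2⟩
  have hdisj : (S : Set ℕ).PairwiseDisjoint R := by
    intro p hp p' hp' hne
    rw [Function.onFun, Finset.disjoint_left]
    intro q hq hq'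
    rw [hR, mem_filter] at hq hq'
    exact seed_disj hS h1 hp hp' hne hq.1 hq.2 hq'.2
  have hsz := size_ineq h (S.biUnion R) (by
    intro q hq
    obtain ⟨p, _, hq'⟩ := mem_biUnion.1 hq
    exact hRV p hq')
  rw [Finset.prod_biUnion hdisj] at hsz
  have h3 : ∏ p ∈ S, p ^ 4 ≤ ∏ p ∈ S, (256 * ∏ q ∈ R p, q ^ (e q - 1)) := Finset.prod_le_prod' hloc
  rw [Finset.prod_mul_distrib, Finset.prod_const] at h3
  calc (∏ p ∈ S, p) ^ 8 = (∏ p ∈ S, p ^ 4) ^ 2 := by rw [Finset.prod_pow, ← pow_mul]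
    _ ≤ (256 ^ S.card * ∏ p ∈ S, ∏ q ∈ R p, q ^ (e q - 1)) ^ 2 := Nat.pow_le_pow_left h3 2
    _ = (256 ^ 2) ^ S.card * (∏ p ∈ S, ∏ q ∈ R p, q ^ (e q - 1)) ^ 2 := by
      rw [mul_pow, ← pow_mul, ← pow_mul, mul_comm S.card 2]
    _ ≤ (256 ^ 2) ^ S.card * n := Nat.mul_le_mul_left _ hsz
    _ = 65536 ^ S.card * n := by norm_num

end Pool.Agent.SigRad
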